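import Pool.Agent.Helper51.PF.Goals

/-!
# Project PF (MP_c27e85_nt), packet LF: joint law of block products on a class
-/

set_option autoImplicit false

open Finset

namespace Pool.Agent.Helper16.PF

open Pool.Agent.Helper51.PF

theorem norm_char {G : Type} [CommGroup G] [Fintype G] (φ : G →* ℂˣ) (g : G) :
    ‖((φ g : ℂˣ) : ℂ)‖ = 1 := by
  have h1 : ((φ g : ℂˣ) : ℂ) ^ Fintype.card G = 1 := by
    rw [← Units.val_pow_eq_pow_val, ← map_pow, pow_card_eq_one, map_one, Units.val_one]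
  exact Complex.norm_eq_one_of_pow_eq_one h1 Fintype.card_ne_zero

theorem exists_inj {n L : ℕ} (s : Finset (Fin n)) (h : L ≤ s.card) :
    ∃ u : Fin L → Fin n, Function.Injective u ∧ ∀ i, u i ∈ s := by
  obtain ⟨t, ht, hc⟩ := Finset.exists_subset_card_eq h
  refine ⟨fun i => t.orderEmbOfFin hc i, fun i j hij => (t.orderEmbOfFin hc).injective hij,
    fun i => ht (Finset.orderEmbOfFin_mem t hc i)⟩

/-- the bound for one nontrivial tuple of characters -/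
theorem one_tuple (hVAL : G_VAL) (hSEQ : G_SEQ) (hSWP : G_SWP)
    (G : Type) [CommGroup G] [Fintype G] (n L q : ℕ) (v : Fin n → G)
    (D : Finset (Fin n)) (τ0 : Equiv.Perm (Fin n)) (Dj : Fin q → Finset (Fin n))
    (hv : SmallChar v) (hn : 1000 ≤ n) (hL : 100 * L ≤ n) (hD : 100 * D.card ≤ n)
    (hdis : ∀ j, Disjoint (Dj j) D) (hdis2 : ∀ j j', j ≠ j' → Disjoint (Dj j) (Dj j'))
    (hlen : ∀ j, L ≤ (Dj j).card) (hrest : L ≤ ((D ∪ univ.biUnion Dj)ᶜ).card)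
    (Φ : Fin q → (G →* ℂˣ)) (hΦ : Φ ≠ 1) :
    ‖∑ τ ∈ cls τ0 D, ∏ j, ((Φ j (bprod v τ (Dj j)) : ℂˣ) : ℂ)‖ ≤
      (4 / 5 : ℝ) ^ L * (cls τ0 D).card := by
  obtain ⟨j0, hj0⟩ : ∃ j0, Φ j0 ≠ 1 := by
    by_contra hcon
    push Not at hcon
    exact hΦ (funext hcon)
  obtain ⟨u, hu, hu2⟩ := exists_inj (Dj j0) (hlen j0)
  obtain ⟨w, hw, hw2⟩ := exists_inj _ hrest
  have hwD : ∀ i, w i ∉ D := by
    intro i hi
    have h1 := hw2 i
    rw [Finset.mem_compl] at h1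
    exact h1 (Finset.mem_union_left _ hi)
  have hwDj : ∀ i j, w i ∉ Dj j := by
    intro i j hi
    have h1 := hw2 i
    rw [Finset.mem_compl] at h1
    exact h1 (Finset.mem_union_right _ (Finset.mem_biUnion.2 ⟨j, Finset.mem_univ _, hi⟩))
  have huD : ∀ i, u i ∉ D := fun i hi => (Finset.disjoint_left.1 (hdis j0)) (hu2 i) hi
  have hcard : ((D.image τ0)ᶜ).card = n - D.card := by
    rw [Finset.card_compl, Fintype.card_fin, Finset.card_image_of_injective _ τ0.injective]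
  refine (hSWP G n L q v D τ0 Dj Φ j0 u w hu hw hu2 hwD hwDj hdis hdis2).trans ?_
  refine hSEQ n L D τ0 u w
    (fun x y => ‖((Φ j0 (v x) : ℂˣ) : ℂ) + ((Φ j0 (v y) : ℂˣ) : ℂ)‖ / 2) hn hL hD hu hw
    (fun i j hij => hwDj j j0 (hij ▸ hu2 i)) huD hwD (fun x y => by positivity) ?_
  refine hVAL G n v hv (Φ j0) hj0 _ ?_ (by omega)
  rw [hcard, Nat.cast_sub (by omega)]
  have h1 : ((100 * D.card : ℕ) : ℝ) ≤ (n : ℝ) := by exact_mod_cast hD
  push_cast at h1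
  linarith

/-- packet LF -/
theorem g_lf (hORT : G_ORT) (hVAL : G_VAL) (hSEQ : G_SEQ) (hSWP : G_SWP) : G_LF := by
  classical
  intro G _ _ n L q v D τ0 Dj t hv hn hL hD hdis hdis2 hlen hrest
  set C := cls τ0 D with hC
  set N : ℝ := (Fintype.card G : ℝ) with hN
  have hNpos : 0 < N := by
    rw [hN]
    exact_mod_cast Fintype.card_pos
  set A := C.filter (fun τ => ∀ j, bprod v τ (Dj j) = t j) with hA
  -- the number of tuples of characters
  have hcardΦ : (Fintype.card (Fin q → (G →* ℂˣ)) : ℂ) = (Fintype.card G : ℂ) ^ q := by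
    have h1 := hORT G q (fun _ => 1)
    rw [if_pos (fun _ => rfl)] at h1
    rw [← h1]
    simp
  have hcardΦ' : (Fintype.card (Fin q → (G →* ℂˣ)) : ℝ) = N ^ q := by
    have h1 : ((Fintype.card (Fin q → (G →* ℂˣ)) : ℝ) : ℂ) = ((N ^ q : ℝ) : ℂ) := by
      rw [hN]
      push_cast
      exact hcardΦ
    exact_mod_cast h1
  -- the counting formula
  have hcount : ((Fintype.card G : ℂ)) ^ q * (A.card : ℂ) =
      ∑ Φ : Fin q → (G →* ℂˣ), (∏ j, ((Φ j ((t j)⁻¹) : ℂˣ) : ℂ)) *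
        ∑ τ ∈ C, ∏ j, ((Φ j (bprod v τ (Dj j)) : ℂˣ) : ℂ) := by
    have h1 : ((Fintype.card G : ℂ)) ^ q * (A.card : ℂ) =
        ∑ τ ∈ C, ∑ Φ : Fin q → (G →* ℂˣ),
          ∏ j, ((Φ j (bprod v τ (Dj j) * (t j)⁻¹) : ℂˣ) : ℂ) := by
      have h2 : ∀ τ ∈ C, ∑ Φ : Fin q → (G →* ℂˣ),
          ∏ j, ((Φ j (bprod v τ (Dj j) * (t j)⁻¹) : ℂˣ) : ℂ) =
          if (∀ j, bprod v τ (Dj j) = t j) then ((Fintype.card G : ℂ)) ^ q else 0 := by
        intro τ _
        rw [hORT G q (fun j => bprod v τ (Dj j) * (t j)⁻¹)]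
        by_cases h3 : ∀ j, bprod v τ (Dj j) = t j
        · rw [if_pos h3, if_pos (fun j => by rw [h3 j, mul_inv_cancel])]
        · rw [if_neg h3, if_neg]
          intro h4
          exact h3 fun j => mul_inv_eq_one.1 (h4 j)
      rw [Finset.sum_congr rfl h2, ← Finset.sum_filter, Finset.sum_const, nsmul_eq_mul, mul_comm]
    rw [h1, Finset.sum_comm]
    refine Finset.sum_congr rfl fun Φ _ => ?_
    rw [Finset.mul_sum]
    refine Finset.sum_congr rfl fun τ _ => ?_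
    rw [← Finset.prod_mul_distrib]
    refine Finset.prod_congr rfl fun j _ => ?_
    rw [map_mul, Units.val_mul, mul_comm]
  have hsplit := hcount
  rw [← Finset.add_sum_erase _ _ (Finset.mem_univ (1 : Fin q → (G →* ℂˣ)))] at hsplit
  have hone : (∏ j : Fin q, ((((1 : Fin q → (G →* ℂˣ)) j) ((t j)⁻¹) : ℂˣ) : ℂ)) *
      ∑ τ ∈ C, ∏ j : Fin q, ((((1 : Fin q → (G →* ℂˣ)) j) (bprod v τ (Dj j)) : ℂˣ) : ℂ) =
      (C.card : ℂ) := by
    simp
  rw [hone] at hsplit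
  have hdiff : ‖((Fintype.card G : ℂ)) ^ q * (A.card : ℂ) - (C.card : ℂ)‖ ≤
      N ^ q * ((4 / 5 : ℝ) ^ L * C.card) := by
    rw [hsplit, add_sub_cancel_left]
    refine (norm_sum_le _ _).trans ?_
    have h1 : ∀ Φ ∈ (univ : Finset (Fin q → (G →* ℂˣ))).erase 1,
        ‖(∏ j, ((Φ j ((t j)⁻¹) : ℂˣ) : ℂ)) *
          ∑ τ ∈ C, ∏ j, ((Φ j (bprod v τ (Dj j)) : ℂˣ) : ℂ)‖ ≤ (4 / 5 : ℝ) ^ L * C.card := by
      intro Φ hΦ
      have h2 : Φ ≠ 1 := (Finset.mem_erase.1 hΦ).1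
      rw [norm_mul, norm_prod]
      have h3 : ∏ j, ‖((Φ j ((t j)⁻¹) : ℂˣ) : ℂ)‖ = 1 :=
        Finset.prod_eq_one fun j _ => norm_char _ _
      rw [h3, one_mul]
      exact one_tuple hVAL hSEQ hSWP G n L q v D τ0 Dj hv hn hL hD hdis hdis2 hlen hrest Φ h2
    refine (Finset.sum_le_card_nsmul _ _ _ h1).trans ?_
    rw [nsmul_eq_mul]
    refine mul_le_mul_of_nonneg_right ?_ (by positivity)
    rw [← hcardΦ']
    have h2 : ((univ : Finset (Fin q → (G →* ℂˣ))).erase 1).card ≤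
        Fintype.card (Fin q → (G →* ℂˣ)) := by
      rw [← Finset.card_univ]
      exact Finset.card_le_card (Finset.erase_subset _ _)
    exact_mod_cast h2
  have hreal : |N ^ q * (A.card : ℝ) - (C.card : ℝ)| ≤ N ^ q * ((4 / 5 : ℝ) ^ L * C.card) := by
    have h1 : ((Fintype.card G : ℂ)) ^ q * (A.card : ℂ) - (C.card : ℂ) =
        ((N ^ q * (A.card : ℝ) - (C.card : ℝ) : ℝ) : ℂ) := by
      rw [hN]
      push_cast
      rfl
    rw [h1, Complex.norm_real, Real.norm_eq_abs] at hdiff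
    exact hdiff
  have hNq : 0 < N ^ q := by positivity
  have hfin : (A.card : ℝ) - (C.card : ℝ) / N ^ q = (N ^ q * (A.card : ℝ) - (C.card : ℝ)) / N ^ q := by
    field_simp
  show |(A.card : ℝ) - (C.card : ℝ) / N ^ q| ≤ (4 / 5 : ℝ) ^ L * C.card
  rw [hfin, abs_div, abs_of_pos hNq, div_le_iff₀ hNq]
  linarith

end Pool.Agent.Helper16.PF
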