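import Pool.Agent.Helper51.PF.Goals

/-!
Project PF, packet NEARB.
-/

namespace Pool.Agent.Helper16.PF

open Finset Pool.Agent.Helper51.PF

/-- The predecessor in `R` (or `0`). -/
def prv (R : Finset ℕ) (x : ℕ) : ℕ := (R.filter (fun y => y < x)).sup id

lemma le_prv {R : Finset ℕ} {x y : ℕ} (hy : y ∈ R) (h : y < x) : y ≤ prv R x :=
  Finset.le_sup (f := id) (mem_filter.2 ⟨hy, h⟩)

lemma prv_lt {R : Finset ℕ} {x : ℕ} (hx : 0 < x) : prv R x < x := by
  unfold prv
  rw [Finset.sup_lt_iff hx]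
  intro y hy
  exact (mem_filter.1 hy).2

lemma prv_mem {R : Finset ℕ} {x : ℕ} : prv R x ∈ R ∨ prv R x = 0 := by
  unfold prv
  rcases (R.filter (fun y => y < x)).eq_empty_or_nonempty with h | h
  · right; rw [h]; rfl
  · left
    obtain ⟨y, hy, h2⟩ := Finset.exists_mem_eq_sup _ h id
    rw [h2]
    exact (mem_filter.1 hy).1

/-- Interval of positions. -/
def iv (n a b : ℕ) : Finset (Fin n) := univ.filter (fun i : Fin n => a ≤ (i : ℕ) ∧ (i : ℕ) < b)

lemma mem_iv {n a b : ℕ} {i : Fin n} : i ∈ iv n a b ↔ a ≤ (i : ℕ) ∧ (i : ℕ) < b := by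
  simp [iv]

lemma card_iv {n a b : ℕ} (hb : b ≤ n) : (iv n a b).card = b - a := by
  rw [← Nat.card_Ico, ← Finset.card_map Fin.valEmbedding]
  congr 1
  ext x
  simp only [mem_map, mem_iv, Fin.valEmbedding_apply, mem_Ico]
  constructor
  · rintro ⟨i, hi, rfl⟩; exact hi
  · rintro ⟨h1, h2⟩; exact ⟨⟨x, by omega⟩, ⟨h1, h2⟩, rfl⟩

section prod

variable {G : Type} [CommGroup G] {n : ℕ} (v : Fin n → G) (τ : Equiv.Perm (Fin n))

lemma Tpr_split {a b : ℕ} (hab : a ≤ b) : Tpr v τ b = Tpr v τ a * bprod v τ (iv n a b) := by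
  unfold Tpr bprod
  have h : (univ.filter (fun i : Fin n => (i : ℕ) < b)) =
      (univ.filter (fun i : Fin n => (i : ℕ) < a)) ∪ iv n a b := by
    ext i
    simp only [mem_filter, mem_univ, true_and, mem_union, mem_iv]
    omega
  rw [h, Finset.prod_union]
  rw [Finset.disjoint_left]
  intro i hi hi'
  simp only [mem_filter, mem_univ, true_and] at hi
  rw [mem_iv] at hi'
  omega

lemma Tpr_zero : Tpr v τ 0 = 1 := by
  unfold Tpr bprod
  simp

end prod

lemma pr_le_sum {Ω ι : Type*} [Fintype Ω] (A : Ω → Prop) (F : Finset ι) (A' : ι → Ω → Prop)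
    (h : ∀ ω, A ω → ∃ t ∈ F, A' t ω) : pr A ≤ ∑ t ∈ F, pr (A' t) := by
  classical
  unfold pr
  rw [← Finset.sum_div]
  refine div_le_div_of_nonneg_right ?_ (Nat.cast_nonneg _)
  have h1 : (univ.filter A) ⊆ F.biUnion (fun t => univ.filter (A' t)) := by
    intro ω hω
    rw [mem_filter] at hω
    obtain ⟨t, ht, h2⟩ := h ω hω.2
    rw [mem_biUnion]
    exact ⟨t, ht, mem_filter.2 ⟨mem_univ _, h2⟩⟩
  have h2 := (Finset.card_le_card h1).trans Finset.card_biUnion_le
  have h3 : ((univ.filter A).card : ℝ) ≤ ((∑ t ∈ F, (univ.filter (A' t)).card : ℕ) : ℝ) := by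
    exact_mod_cast h2
  rw [Nat.cast_sum] at h3
  convert h3 using 3

section comb

variable {n L : ℕ} {R : Finset ℕ} {r r2 : ℕ}

/-- The set `R \ {r} ∪ {r2}`. -/
def Rp (R : Finset ℕ) (r r2 : ℕ) : Finset ℕ := insert r2 (R.erase r)

lemma mem_Rp {x : ℕ} : x ∈ Rp R r r2 ↔ x = r2 ∨ (x ≠ r ∧ x ∈ R) := by
  unfold Rp
  rw [mem_insert, mem_erase]

lemma Rp_cases (hgap : ∀ r ∈ R, ∀ r' ∈ R, r < r' → r + 2 * L ≤ r') (hr : r ∈ R)
    (h2 : r < r2 + L) {x : ℕ} (hx : x ∈ Rp R r r2) :
    x = r2 ∨ (x ∈ R ∧ x + L < r2) ∨ (x ∈ R ∧ r + 2 * L ≤ x) := by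
  unfold Rp at hx
  rw [mem_insert, mem_erase] at hx
  rcases hx with hx | ⟨hx, hxR⟩
  · exact Or.inl hx
  · rcases lt_or_gt_of_ne hx with h | h
    · have := hgap x hxR r hr h
      exact Or.inr (Or.inl ⟨hxR, by omega⟩)
    · exact Or.inr (Or.inr ⟨hxR, hgap r hr x hxR h⟩)

/-- The block of `x`. -/
def Db (n : ℕ) (R : Finset ℕ) (r r2 x : ℕ) : Finset (Fin n) :=
  iv n (prv (Rp R r r2) x) x \ iv n r2 r

lemma card_Db (hR : ∀ r ∈ R, L < r ∧ r + L < n)
    (hgap : ∀ r ∈ R, ∀ r' ∈ R, r < r' → r + 2 * L ≤ r') (hr : r ∈ R)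
    (h1 : r2 < r) (h2 : r < r2 + L) (h3 : L < r2) {x : ℕ} (hx : x ∈ Rp R r r2) :
    L ≤ (Db n R r r2 x).card := by
  have hrn := hR r hr
  have hxx : L < x ∧ x + L < n := by
    rcases Rp_cases hgap hr h2 hx with h | ⟨h, _⟩ | ⟨h, _⟩
    · subst h; omega
    · exact hR x h
    · exact hR x h
  have hp : prv (Rp R r r2) x < x := prv_lt (by omega)
  by_cases hp2 : prv (Rp R r r2) x = r2
  · have h4 : r + 2 * L ≤ x := by
      rcases Rp_cases hgap hr h2 hx with h | ⟨_, h⟩ | ⟨_, h⟩
      · omega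
      · omega
      · exact h
    have h5 : iv n r x ⊆ Db n R r r2 x := by
      intro i hi
      unfold Db
      rw [mem_sdiff, mem_iv, mem_iv, hp2]
      rw [mem_iv] at hi
      omega
    have h6 := Finset.card_le_card h5
    rw [card_iv (by omega)] at h6
    omega
  · have h4 : iv n (prv (Rp R r r2) x) x ⊆ Db n R r r2 x := by
      intro i hi
      unfold Db
      rw [mem_sdiff]
      refine ⟨hi, ?_⟩
      rw [mem_iv] at hi ⊢
      rcases Rp_cases hgap hr h2 hx with h | ⟨_, h⟩ | ⟨_, h⟩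
      · omega
      · omega
      · have h5 : r2 ≤ prv (Rp R r r2) x := le_prv (by simp [Rp]) (by omega)
        have h6 : prv (Rp R r r2) x ∈ Rp R r r2 := by
          rcases prv_mem (R := Rp R r r2) (x := x) with h7 | h7
          · exact h7
          · omega
        rcases Rp_cases hgap hr h2 h6 with h7 | ⟨_, h7⟩ | ⟨_, h7⟩
        · exact absurd h7 hp2
        · omega
        · omega
    have h6 := Finset.card_le_card h4
    rw [card_iv (by omega)] at h6
    rcases prv_mem (R := Rp R r r2) (x := x) with h7 | h7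
    · rcases Rp_cases hgap hr h2 h7 with h8 | ⟨h8, h9⟩ | ⟨h8, h9⟩
      · exact absurd h8 hp2
      · rcases Rp_cases hgap hr h2 hx with h | ⟨h, _⟩ | ⟨h, _⟩
        · omega
        · have := hgap _ h8 _ h hp
          omega
        · have := hgap _ h8 _ h hp
          omega
      · rcases Rp_cases hgap hr h2 hx with h | ⟨h, _⟩ | ⟨h, _⟩
        · omega
        · have := hgap _ h8 _ h hp
          omega
        · have := hgap _ h8 _ h hp
          omega
    · omega

lemma disj_Db {x y : ℕ} (hx : x ∈ Rp R r r2) (hxy : x < y) :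
    Disjoint (Db n R r r2 x) (Db n R r r2 y) := by
  rw [Finset.disjoint_left]
  intro i hi hi'
  unfold Db at hi hi'
  rw [mem_sdiff, mem_iv] at hi hi'
  have := le_prv hx hxy
  omega

lemma Db_prod {G : Type} [CommGroup G] (v : Fin n → G) (τ : Equiv.Perm (Fin n))
    (hR : ∀ r ∈ R, L < r ∧ r + L < n)
    (hgap : ∀ r ∈ R, ∀ r' ∈ R, r < r' → r + 2 * L ≤ r') (hr : r ∈ R)
    (h1 : r2 < r) (h2 : r < r2 + L) (h3 : L < r2) {x : ℕ} (hx : x ∈ Rp R r r2) :
    Tpr v τ x = Tpr v τ (prv (Rp R r r2) x) * (bprod v τ (Db n R r r2 x) *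
      (if prv (Rp R r r2) x = r2 then bprod v τ (iv n r2 r) else 1)) := by
  have hxx : L < x := by
    rcases Rp_cases hgap hr h2 hx with h | ⟨h, _⟩ | ⟨h, _⟩
    · subst h; omega
    · exact (hR x h).1
    · exact (hR x h).1
  have hp : prv (Rp R r r2) x < x := prv_lt (by omega)
  rw [Tpr_split v τ hp.le]
  congr 1
  by_cases hp2 : prv (Rp R r r2) x = r2
  · rw [if_pos hp2]
    have h4 : r + 2 * L ≤ x := by
      rcases Rp_cases hgap hr h2 hx with h | ⟨_, h⟩ | ⟨_, h⟩
      · omega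
      · omega
      · exact h
    unfold bprod Db
    rw [Finset.prod_sdiff]
    intro i hi
    rw [mem_iv] at hi ⊢
    omega
  · rw [if_neg hp2, mul_one]
    have h4 : Db n R r r2 x = iv n (prv (Rp R r r2) x) x := by
      unfold Db
      rw [Finset.sdiff_eq_self_iff_disjoint, Finset.disjoint_left]
      intro i hi
      rw [mem_iv] at hi ⊢
      rcases Rp_cases hgap hr h2 hx with h | ⟨_, h⟩ | ⟨_, h⟩
      · omega
      · omega
      · have h5 : r2 ≤ prv (Rp R r r2) x := le_prv (by simp [Rp]) (by omega)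
        have h6 : prv (Rp R r r2) x ∈ Rp R r r2 := by
          rcases prv_mem (R := Rp R r r2) (x := x) with h7 | h7
          · exact h7
          · omega
        rcases Rp_cases hgap hr h2 h6 with h7 | ⟨_, h7⟩ | ⟨_, h7⟩
        · exact absurd h7 hp2
        · omega
        · omega
    rw [h4]

end comb

theorem g_nearb (hNR : G_NR) : G_NEARB := by
  intro G _ _ n L β v R B r r2 hv hsm hn hL hR hgap hB hr h1 h2 h3
  classical
  have hrn := hR r hr
  set R' := Rp R r r2 with hR'
  have hr2R : r2 ∉ R := by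
    intro h
    have := hgap r2 h r hr h1
    omega
  have hcard : #R' = #R := by
    rw [hR', Rp, Finset.card_insert_of_notMem (by
      intro h; exact hr2R (Finset.mem_of_mem_erase h)), Finset.card_erase_of_mem hr]
    have : 0 < #R := Finset.card_pos.2 ⟨r, hr⟩
    omega
  have hr2' : r2 ∈ R' := by simp [hR', Rp]
  let e : Fin #R' ≃ R' := R'.equivFin.symm
  set D : Finset (Fin n) := iv n r2 r with hD
  have hDc : D.card = r - r2 := card_iv (by omega)
  let Dj : Fin #R' → Finset (Fin n) := fun j => Db n R r r2 (e j : ℕ)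
  let j2 : Fin #R' := e.symm ⟨r2, hr2'⟩
  have hj2 : ((e j2 : R') : ℕ) = r2 := by simp [j2]
  -- the targets
  let tp : (Fin #R' → G) → Fin #R' → G := fun t j =>
    if h : prv R' (e j : ℕ) ∈ R' then t (e.symm ⟨prv R' (e j : ℕ), h⟩) else 1
  let t' : (Fin #R' → G) → G → Fin #R' → G := fun t W j =>
    t j * (tp t j)⁻¹ * (if prv R' (e j : ℕ) = r2 then W else 1)⁻¹
  let S : (Fin #R' → G) → Finset G := fun t => (B r).image (fun g => (t j2)⁻¹ * g)
  let F : Finset (Fin #R' → G) := Fintype.piFinset (fun j => B (e j : ℕ))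
  have hF : (F.card : ℝ) ≤ (β : ℝ) ^ #R := by
    have : F.card ≤ β ^ #R' := by
      rw [Fintype.card_piFinset]
      calc ∏ j : Fin #R', #(B (e j : ℕ)) ≤ ∏ _j : Fin #R', β :=
            Finset.prod_le_prod' fun j _ => hB _
        _ = β ^ #R' := by simp
    rw [← hcard]
    exact_mod_cast this
  have hstep : pr (fun τ : Equiv.Perm (Fin n) =>
      (∀ r' ∈ R, Tpr v τ r' ∈ B r') ∧ Tpr v τ r2 ∈ B r2) ≤
      ∑ t ∈ F, pr (fun τ : Equiv.Perm (Fin n) =>
        bprod v τ D ∈ S t ∧ ∀ j, bprod v τ (Dj j) = t' t (bprod v τ D) j) := by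
    refine pr_le_sum _ F _ ?_
    rintro τ ⟨ha, hb⟩
    refine ⟨fun j => Tpr v τ (e j : ℕ), ?_, ?_, ?_⟩
    · rw [Fintype.mem_piFinset]
      intro j
      have hj := mem_Rp.1 (e j).2
      rcases hj with hj | hj
      · rw [hj]; exact hb
      · exact ha _ hj.2
    · change _ ∈ (B r).image _
      rw [mem_image]
      refine ⟨Tpr v τ r, ha r hr, ?_⟩
      change (Tpr v τ ((e j2 : R') : ℕ))⁻¹ * Tpr v τ r = bprod v τ D
      rw [hj2, Tpr_split v τ h1.le, inv_mul_cancel_left]
    · intro j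
      have hx := Db_prod v τ hR hgap hr h1 h2 h3 (e j).2
      rw [← hR'] at hx
      have htp : tp (fun j => Tpr v τ (e j : ℕ)) j = Tpr v τ (prv R' (e j : ℕ)) := by
        change (if h : prv R' (e j : ℕ) ∈ R' then
          Tpr v τ ((e (e.symm ⟨prv R' (e j : ℕ), h⟩) : R') : ℕ) else 1) = _
        split_ifs with h
        · rw [Equiv.apply_symm_apply]
        · rcases prv_mem (R := R') (x := (e j : ℕ)) with h7 | h7
          · exact absurd h7 h
          · rw [h7, Tpr_zero]
      change bprod v τ (Db n R r r2 (e j : ℕ)) = Tpr v τ (e j : ℕ) *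
        (tp (fun j => Tpr v τ (e j : ℕ)) j)⁻¹ *
        (if prv R' (e j : ℕ) = r2 then bprod v τ D else 1)⁻¹
      rw [htp, hx]
      generalize (if prv R' (e j : ℕ) = r2 then bprod v τ D else 1) = w
      generalize Tpr v τ (prv R' (e j : ℕ)) = w1
      generalize bprod v τ (Db n R r r2 (e j : ℕ)) = w2
      rw [mul_comm w1 (w2 * w), mul_assoc (w2 * w) w1, mul_inv_cancel, mul_one,
        mul_inv_cancel_right]
  refine hstep.trans ?_
  have hnL : (0 : ℝ) < (n : ℝ) - L := by
    have : L < n := by omega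
    have : (L : ℝ) < n := by exact_mod_cast this
    linarith
  have hN : 0 ≤ 1 / (Fintype.card G : ℝ) ^ #R + (4 / 5 : ℝ) ^ L := by positivity
  have hterm : ∀ t ∈ F, pr (fun τ : Equiv.Perm (Fin n) =>
        bprod v τ D ∈ S t ∧ ∀ j, bprod v τ (Dj j) = t' t (bprod v τ D) j) ≤
      (1 / (Fintype.card G : ℝ) ^ #R + (4 / 5 : ℝ) ^ L) * ((β : ℝ) / ((n : ℝ) - L)) := by
    intro t _
    have hnr := hNR G n L #R' v D Dj (S t) (t' t) hv hsm hn hL (by rw [hDc]; omega)
      (by
        rw [← Finset.card_pos, hDc]; omega)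
      (by
        intro j
        exact Finset.sdiff_disjoint)
      (by
        intro j j' hjj
        have hne : (e j : ℕ) ≠ (e j' : ℕ) := by
          intro h
          exact hjj (e.injective (Subtype.ext h))
        rcases lt_or_gt_of_ne hne with h | h
        · exact disj_Db (e j).2 h
        · exact (disj_Db (e j').2 h).symm)
      (by
        intro j
        exact card_Db hR hgap hr h1 h2 h3 (e j).2)
      (by
        -- the rest
        set M := R.sup id with hM
        have hMR : M ∈ R := by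
          obtain ⟨y, hy, h4⟩ := Finset.exists_mem_eq_sup R ⟨r, hr⟩ id
          rw [hM, h4]; exact hy
        have hMn := hR M hMR
        have hrM : r ≤ M := Finset.le_sup (f := id) hr
        have hsub : iv n M n ⊆ (D ∪ univ.biUnion Dj)ᶜ := by
          intro i hi
          rw [mem_iv] at hi
          rw [mem_compl, mem_union, mem_biUnion]
          rintro (h4 | ⟨j, _, h4⟩)
          · rw [hD, mem_iv] at h4; omega
          · change i ∈ Db n R r r2 (e j : ℕ) at h4
            unfold Db at h4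
            rw [mem_sdiff, mem_iv] at h4
            have hj := mem_Rp.1 (e j).2
            rcases hj with hj | hj
            · omega
            · have : (e j : ℕ) ≤ M := Finset.le_sup (f := id) hj.2
              omega
        have h5 := Finset.card_le_card hsub
        rw [card_iv le_rfl] at h5
        omega)
    refine hnr.trans ?_
    rw [hcard]
    refine mul_le_mul_of_nonneg_left ?_ hN
    have hSc : ((S t).card : ℝ) ≤ β := by
      have : (S t).card ≤ β := Finset.card_image_le.trans (hB r)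
      exact_mod_cast this
    have hden : (n : ℝ) - L ≤ (n : ℝ) - D.card + 1 := by
      have : D.card ≤ L := by rw [hDc]; omega
      have : (D.card : ℝ) ≤ L := by exact_mod_cast this
      linarith
    exact div_le_div₀ (Nat.cast_nonneg _) hSc hnL hden
  calc ∑ t ∈ F, pr (fun τ : Equiv.Perm (Fin n) =>
        bprod v τ D ∈ S t ∧ ∀ j, bprod v τ (Dj j) = t' t (bprod v τ D) j)
      ≤ ∑ _t ∈ F, (1 / (Fintype.card G : ℝ) ^ #R + (4 / 5 : ℝ) ^ L) *
          ((β : ℝ) / ((n : ℝ) - L)) := Finset.sum_le_sum hterm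
    _ = (F.card : ℝ) * ((1 / (Fintype.card G : ℝ) ^ #R + (4 / 5 : ℝ) ^ L) *
          ((β : ℝ) / ((n : ℝ) - L))) := by rw [Finset.sum_const, nsmul_eq_mul]
    _ ≤ (β : ℝ) ^ #R * ((1 / (Fintype.card G : ℝ) ^ #R + (4 / 5 : ℝ) ^ L) *
          ((β : ℝ) / ((n : ℝ) - L))) := by
        refine mul_le_mul_of_nonneg_right hF ?_
        exact mul_nonneg hN (div_nonneg (Nat.cast_nonneg _) hnL.le)
    _ = _ := by ring

end Pool.Agent.Helper16.PF
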